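import Mathlib

/-!
# The number of ideals of given norm
-/

open NumberField Ideal

namespace Pool.Agent.H54.Zeta

variable (K : Type*) [Field K] [NumberField K]

/-- number of ideals of norm `n` -/
noncomputable def cnt (n : ℕ) : ℕ := Nat.card {I : Ideal (𝓞 K) // absNorm I = n}

variable {K}

set_option linter.unusedSectionVars false

instance finite_norm (n : ℕ) : Finite {I : Ideal (𝓞 K) // absNorm I = n} :=
  (Ideal.finite_setOfPred_absNorm_eq n).to_subtype

theorem cnt_zero : cnt K 0 = 1 := by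
  simp [cnt, Ideal.absNorm_eq_zero_iff]

theorem cnt_one : cnt K 1 = 1 := by
  simp [cnt, Ideal.absNorm_eq_one_iff]

theorem coprime_span {m n : ℕ} (h : Nat.Coprime m n) :
    Ideal.span {(m : 𝓞 K)} ⊔ Ideal.span {(n : 𝓞 K)} = ⊤ := by
  rw [Ideal.eq_top_iff_one]
  have h1 : IsCoprime (m : ℤ) (n : ℤ) := Nat.isCoprime_iff_coprime.mpr h
  obtain ⟨a, b, hab⟩ := h1
  have h2 : (1 : 𝓞 K) = (a : 𝓞 K) * (m : 𝓞 K) + (b : 𝓞 K) * (n : 𝓞 K) := by
    have := congrArg (fun x : ℤ => (x : 𝓞 K)) hab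
    push_cast at this
    exact this.symm
  rw [h2]
  exact Ideal.add_mem _
    (Ideal.mem_sup_left (Ideal.mul_mem_left _ _ (Ideal.mem_span_singleton_self _)))
    (Ideal.mem_sup_right (Ideal.mul_mem_left _ _ (Ideal.mem_span_singleton_self _)))

theorem span_le_of_norm {I : Ideal (𝓞 K)} {m : ℕ} (h : absNorm I = m) :
    Ideal.span {(m : 𝓞 K)} ≤ I := by
  rw [← h]; exact Ideal.span_singleton_absNorm_le I

theorem recover {I J : Ideal (𝓞 K)} {m n : ℕ} (h : Nat.Coprime m n) (hI : absNorm I = m)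
    (hJ : absNorm J = n) : I * J ⊔ Ideal.span {(m : 𝓞 K)} = I := by
  apply le_antisymm
  · exact sup_le Ideal.mul_le_left (span_le_of_norm hI)
  · have h1 : J ⊔ Ideal.span {(m : 𝓞 K)} = ⊤ := by
      rw [eq_top_iff, ← coprime_span (K := K) h.symm]
      exact sup_le_sup_right (span_le_of_norm hJ) _
    calc I = I * (J ⊔ Ideal.span {(m : 𝓞 K)}) := by rw [h1, Ideal.mul_top]
      _ = I * J ⊔ I * Ideal.span {(m : 𝓞 K)} := Ideal.mul_sup _ _ _
      _ ≤ _ := sup_le_sup_left Ideal.mul_le_right _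

theorem split_ideal {I : Ideal (𝓞 K)} {m n : ℕ} (h : Nat.Coprime m n)
    (hI : absNorm I = m * n) :
    (I ⊔ Ideal.span {(m : 𝓞 K)}) * (I ⊔ Ideal.span {(n : 𝓞 K)}) = I := by
  have hmn : Ideal.span {(m : 𝓞 K)} * Ideal.span {(n : 𝓞 K)} ≤ I := by
    rw [Ideal.span_singleton_mul_span_singleton, ← Nat.cast_mul]
    exact span_le_of_norm hI
  apply le_antisymm
  · rw [Ideal.sup_mul, Ideal.mul_sup, Ideal.mul_sup]
    exact sup_le (sup_le Ideal.mul_le_left Ideal.mul_le_left)
      (sup_le Ideal.mul_le_right hmn)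
  · have h1 : I = I * (Ideal.span {(m : 𝓞 K)} ⊔ Ideal.span {(n : 𝓞 K)}) := by
      rw [coprime_span h, Ideal.mul_top]
    conv_lhs => rw [h1, Ideal.mul_sup]
    apply sup_le
    · rw [mul_comm]
      exact Ideal.mul_mono le_sup_right le_sup_left
    · exact Ideal.mul_mono le_sup_left le_sup_right

theorem norm_split {I : Ideal (𝓞 K)} {m n : ℕ} (hm : m ≠ 0) (hn : n ≠ 0) (h : Nat.Coprime m n)
    (hI : absNorm I = m * n) :
    absNorm (I ⊔ Ideal.span {(m : 𝓞 K)}) = m ∧ absNorm (I ⊔ Ideal.span {(n : 𝓞 K)}) = n := by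
  have h1 : absNorm (I ⊔ Ideal.span {(m : 𝓞 K)}) ∣ m ^ Module.finrank ℤ (𝓞 K) := by
    rw [← Ideal.absNorm_span_natCast]
    exact Ideal.absNorm_dvd_absNorm_of_le le_sup_right
  have h2 : absNorm (I ⊔ Ideal.span {(n : 𝓞 K)}) ∣ n ^ Module.finrank ℤ (𝓞 K) := by
    rw [← Ideal.absNorm_span_natCast]
    exact Ideal.absNorm_dvd_absNorm_of_le le_sup_right
  have h3 : absNorm (I ⊔ Ideal.span {(m : 𝓞 K)}) * absNorm (I ⊔ Ideal.span {(n : 𝓞 K)}) = m * n := by
    rw [← map_mul, split_ideal h hI, hI]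
  set a := absNorm (I ⊔ Ideal.span {(m : 𝓞 K)})
  set b := absNorm (I ⊔ Ideal.span {(n : 𝓞 K)})
  have ha : a ∣ m := by
    have hc : Nat.Coprime a n := Nat.Coprime.coprime_dvd_left h1 (Nat.Coprime.pow_left _ h)
    exact hc.dvd_of_dvd_mul_right (Dvd.intro _ h3)
  have hb : b ∣ n := by
    have hc : Nat.Coprime b m := Nat.Coprime.coprime_dvd_left h2 (Nat.Coprime.pow_left _ h.symm)
    exact hc.dvd_of_dvd_mul_left (Dvd.intro_left _ h3)
  obtain ⟨a', ha'⟩ := ha
  obtain ⟨b', hb'⟩ := hb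
  have h4 : (a * b) * (a' * b') = a * b := by
    calc _ = (a * a') * (b * b') := by ring
      _ = _ := by rw [← ha', ← hb', h3]
  have hab : a * b ≠ 0 := by rw [h3]; exact mul_ne_zero hm hn
  have h5 : a' * b' = 1 := by
    exact Nat.eq_of_mul_eq_mul_left (Nat.pos_of_ne_zero hab) (by rw [h4, mul_one])
  have h6 : a' = 1 := Nat.eq_one_of_mul_eq_one_right h5
  have h7 : b' = 1 := Nat.eq_one_of_mul_eq_one_left h5
  rw [h6, mul_one] at ha'
  rw [h7, mul_one] at hb'
  exact ⟨ha'.symm, hb'.symm⟩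

theorem cnt_mul {m n : ℕ} (hm : m ≠ 0) (hn : n ≠ 0) (h : Nat.Coprime m n) :
    cnt K (m * n) = cnt K m * cnt K n := by
  unfold cnt
  rw [← Nat.card_prod]
  refine (Nat.card_congr ?_).symm
  refine
    { toFun := fun x => ⟨x.1.1 * x.2.1, by rw [map_mul, x.1.2, x.2.2]⟩
      invFun := fun I => ⟨⟨I.1 ⊔ Ideal.span {(m : 𝓞 K)}, (norm_split hm hn h I.2).1⟩,
        ⟨I.1 ⊔ Ideal.span {(n : 𝓞 K)}, (norm_split hm hn h I.2).2⟩⟩
      left_inv := ?_
      right_inv := ?_ }
  · rintro ⟨⟨I, hI⟩, ⟨J, hJ⟩⟩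
    simp only [Prod.mk.injEq, Subtype.mk.injEq]
    refine ⟨recover h hI hJ, ?_⟩
    rw [mul_comm]
    exact recover h.symm hJ hI
  · rintro ⟨I, hI⟩
    simp only [Subtype.mk.injEq]
    exact split_ideal h hI

/-- The prime factors of `p` in `𝓞 K`. -/
noncomputable def T (K : Type*) [Field K] [NumberField K] (p : ℕ) : Finset (Ideal (𝓞 K)) := by
  classical
  exact (UniqueFactorizationMonoid.normalizedFactors (Ideal.span {(p : 𝓞 K)})).toFinset

theorem dvd_norm {p : ℕ} (hp : p.Prime) {P : Ideal (𝓞 K)} (hP : P ∣ Ideal.span {(p : 𝓞 K)})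
    (h1 : P ≠ ⊤) : p ∣ absNorm P := by
  have h2 : absNorm P ∣ p ^ Module.finrank ℤ (𝓞 K) := by
    rw [← Ideal.absNorm_span_natCast]
    exact Ideal.absNorm_dvd_absNorm_of_le (Ideal.dvd_iff_le.mp hP)
  obtain ⟨k, -, hk⟩ := (Nat.dvd_prime_pow hp).mp h2
  rcases Nat.eq_zero_or_pos k with rfl | hk0
  · exfalso
    apply h1
    rw [pow_zero] at hk
    exact Ideal.absNorm_eq_one_iff.mp hk
  · rw [hk]
    exact dvd_pow_self p hk0.ne'

theorem card_T {p : ℕ} (hp : p.Prime) : (T K p).card ≤ Module.finrank ℤ (𝓞 K) := by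
  classical
  have hne : Ideal.span {(p : 𝓞 K)} ≠ ⊥ := by
    rw [Ne, Ideal.span_singleton_eq_bot]
    exact_mod_cast hp.ne_zero
  set S := UniqueFactorizationMonoid.normalizedFactors (Ideal.span {(p : 𝓞 K)}) with hS
  have h0 : S.prod = Ideal.span {(p : 𝓞 K)} := Ideal.prod_normalizedFactors_eq_self hne
  have h1 : (T K p).card ≤ Multiset.card S := Multiset.toFinset_card_le _
  refine h1.trans ?_
  have h2 : p ^ Multiset.card S ∣ (S.map absNorm).prod := by
    have key : ∀ R : Multiset (Ideal (𝓞 K)), (∀ P ∈ R, p ∣ absNorm P) →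
        p ^ Multiset.card R ∣ (R.map absNorm).prod := by
      intro R
      induction R using Multiset.induction_on with
      | empty => simp
      | cons P R ih =>
        intro h
        rw [Multiset.card_cons, Multiset.map_cons, Multiset.prod_cons, pow_succ, mul_comm]
        exact mul_dvd_mul (h P (Multiset.mem_cons_self _ _))
          (ih fun Q hQ => h Q (Multiset.mem_cons_of_mem hQ))
    apply key
    intro P hP
    have hdvd := UniqueFactorizationMonoid.dvd_of_mem_normalizedFactors hP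
    have hpr := UniqueFactorizationMonoid.prime_of_normalized_factor _ hP
    apply dvd_norm hp hdvd
    intro htop
    exact hpr.not_isUnit (Ideal.isUnit_iff.mpr htop)
  rw [Multiset.prod_hom, h0, Ideal.absNorm_span_natCast] at h2
  exact (Nat.pow_dvd_pow_iff_le_right hp.one_lt).mp h2

theorem cnt_prime_pow_le {p : ℕ} (hp : p.Prime) (e : ℕ) :
    cnt K (p ^ e) ≤ (e + 1) ^ Module.finrank ℤ (𝓞 K) := by
  classical
  have hne : ∀ I : Ideal (𝓞 K), absNorm I = p ^ e → I ≠ ⊥ := by
    rintro I hI rfl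
    rw [Ideal.absNorm_bot] at hI
    exact pow_ne_zero e hp.ne_zero hI.symm
  have hmem : ∀ I : Ideal (𝓞 K), absNorm I = p ^ e → ∀ P ∈
      UniqueFactorizationMonoid.normalizedFactors I, P ∣ Ideal.span {(p : 𝓞 K)} := by
    intro I hI P hP
    have hpr := UniqueFactorizationMonoid.prime_of_normalized_factor _ hP
    have hdvd := UniqueFactorizationMonoid.dvd_of_mem_normalizedFactors hP
    have h1 : I ∣ Ideal.span {((p ^ e : ℕ) : 𝓞 K)} := Ideal.dvd_iff_le.mpr (span_le_of_norm hI)
    have h2 : P ∣ Ideal.span {(p : 𝓞 K)} ^ e := by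
      rw [Ideal.span_singleton_pow, ← Nat.cast_pow]
      exact hdvd.trans h1
    exact hpr.dvd_of_dvd_pow h2
  have hbound : ∀ I : Ideal (𝓞 K), absNorm I = p ^ e → ∀ P,
      (UniqueFactorizationMonoid.normalizedFactors I).count P < e + 1 := by
    intro I hI P
    by_cases hP : P ∈ UniqueFactorizationMonoid.normalizedFactors I
    swap
    · rw [Multiset.count_eq_zero_of_notMem hP]; omega
    have hpr := UniqueFactorizationMonoid.prime_of_normalized_factor _ hP
    have hp' : p ∣ absNorm P := dvd_norm hp (hmem I hI P hP)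
      (fun htop => hpr.not_isUnit (Ideal.isUnit_iff.mpr htop))
    set c := (UniqueFactorizationMonoid.normalizedFactors I).count P with hc
    have h1 : P ^ c ∣ I := by
      have h2 : Multiset.replicate c P ≤ UniqueFactorizationMonoid.normalizedFactors I :=
        Multiset.le_count_iff_replicate_le.mp le_rfl
      have h3 := Multiset.prod_dvd_prod_of_le h2
      rwa [Multiset.prod_replicate, Ideal.prod_normalizedFactors_eq_self (hne I hI)] at h3
    have h4 : p ^ c ∣ p ^ e := by
      calc p ^ c ∣ absNorm P ^ c := pow_dvd_pow_of_dvd hp' c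
        _ = absNorm (P ^ c) := (map_pow _ _ _).symm
        _ ∣ absNorm I := Ideal.absNorm_dvd_absNorm_of_le (Ideal.dvd_iff_le.mp h1)
        _ = p ^ e := hI
    exact Nat.lt_succ_of_le ((Nat.pow_dvd_pow_iff_le_right hp.one_lt).mp h4)
  let f : {I : Ideal (𝓞 K) // absNorm I = p ^ e} → (T K p → Fin (e + 1)) :=
    fun I P => ⟨(UniqueFactorizationMonoid.normalizedFactors I.1).count P.1, hbound I.1 I.2 P.1⟩
  have hf : Function.Injective f := by
    rintro ⟨I, hI⟩ ⟨J, hJ⟩ h
    have h1 : UniqueFactorizationMonoid.normalizedFactors I =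
        UniqueFactorizationMonoid.normalizedFactors J := by
      ext P
      by_cases hP : P ∈ T K p
      · have h2 := congrFun h ⟨P, hP⟩
        simpa [f] using h2
      · have key : ∀ I : Ideal (𝓞 K), absNorm I = p ^ e →
            (UniqueFactorizationMonoid.normalizedFactors I).count P = 0 := by
          intro I hI
          apply Multiset.count_eq_zero_of_notMem
          intro hP'
          apply hP
          have hpr := UniqueFactorizationMonoid.prime_of_normalized_factor _ hP'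
          rw [T, Multiset.mem_toFinset]
          have hne : Ideal.span {(p : 𝓞 K)} ≠ ⊥ := by
            rw [Ne, Ideal.span_singleton_eq_bot]
            exact_mod_cast hp.ne_zero
          exact (UniqueFactorizationMonoid.mem_normalizedFactors_iff hne).mpr
            ⟨hpr, hmem I hI P hP'⟩
        rw [key I hI, key J hJ]
    have h3 : I = J := by
      rw [← Ideal.prod_normalizedFactors_eq_self (hne I hI), h1,
        Ideal.prod_normalizedFactors_eq_self (hne J hJ)]
    exact Subtype.ext h3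
  calc cnt K (p ^ e) ≤ Nat.card (T K p → Fin (e + 1)) := Nat.card_le_card_of_injective f hf
    _ = (e + 1) ^ (T K p).card := by simp [Nat.card_eq_fintype_card]
    _ ≤ _ := Nat.pow_le_pow_right (by omega) (card_T hp)

end Pool.Agent.H54.Zeta
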