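import Mathlib
import Pool.Agent.H54.Zeta.Count

/-!
# The sum over primes of the number of ideals of norm `p`
-/

open NumberField Ideal Filter Topology Asymptotics

namespace Pool.Agent.H54.Zeta

variable (K : Type*) [Field K] [NumberField K]

/-- the average number of ideals -/
theorem tendsto_avg : Tendsto (fun n : ℕ => (∑ k ∈ Finset.Icc 1 n, (cnt K k : ℝ)) / n) atTop
    (𝓝 (dedekindZeta_residue K)) := by
  refine ((Ideal.tendsto_norm_le_div_atTop₀ K).comp tendsto_natCast_atTop_atTop).congr fun n ↦ ?_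
  simp only [Function.comp_apply, Nat.cast_le, ← Nat.cast_sum]
  congr
  rw [← add_left_inj 1, ← card_norm_le_eq_card_norm_le_add_one,
    show Finset.Icc 1 n = Finset.Ioc 0 n from Finset.Icc_succ_left_eq_Ioc _ _,
    show 1 = cnt K 0 from cnt_zero.symm,
    Finset.sum_Ioc_add_eq_sum_Icc (n.zero_le)]
  unfold cnt
  rw [← Finset.card_preimage_eq_sum_card_image_eq (fun k _ ↦ finite_setOfPred_absNorm_eq k)]
  simp [Set.coe_eq_subtype]

theorem isBigO_avg : (fun n : ℕ => ∑ k ∈ Finset.Icc 1 n, (cnt K k : ℝ)) =O[atTop]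
    fun n => (n : ℝ) ^ (1 : ℝ) := by
  have h := (tendsto_avg K).isBigO_one ℝ
  have h2 := h.mul (isBigO_refl (fun n : ℕ => (n : ℝ)) atTop)
  refine (h2.congr' ?_ ?_)
  · filter_upwards [eventually_gt_atTop 0] with n hn
    have : (n : ℝ) ≠ 0 := by positivity
    field_simp
  · filter_upwards with n
    simp

/-- coefficients -/
noncomputable def fs (s : ℝ) (n : ℕ) : ℝ := (cnt K n : ℝ) * (n : ℝ) ^ (-s)

theorem fs_nonneg (s : ℝ) (n : ℕ) : 0 ≤ fs K s n := by
  unfold fs; positivity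

theorem term_eq {s : ℝ} (hs : 1 < s) (n : ℕ) :
    LSeries.term (fun n => ((cnt K n : ℝ) : ℂ)) s n = ((fs K s n : ℝ) : ℂ) := by
  have hs0 : (s : ℂ) ≠ 0 := by
    intro h
    have : s = 0 := by exact_mod_cast h
    linarith
  rw [LSeries.term_of_ne_zero' hs0, fs]
  push_cast
  rw [Complex.ofReal_cpow (by positivity)]
  push_cast
  rw [Complex.cpow_neg, div_eq_mul_inv]

theorem summable_fs {s : ℝ} (hs : 1 < s) : Summable (fs K s) := by
  have h := LSeriesSummable_of_sum_norm_bigO_and_nonneg (s := (s : ℂ)) (isBigO_avg K)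
    (fun n => by positivity) zero_le_one (by simpa using hs)
  unfold LSeriesSummable at h
  have h2 : LSeries.term (fun n => ((cnt K n : ℝ) : ℂ)) s = fun n => ((fs K s n : ℝ) : ℂ) :=
    funext (term_eq K hs)
  rw [h2] at h
  exact_mod_cast h

/-- the real zeta function -/
noncomputable def zt (s : ℝ) : ℝ := ∑' n, fs K s n

theorem dedekindZeta_eq {s : ℝ} (hs : 1 < s) : dedekindZeta K s = (zt K s : ℂ) := by
  unfold dedekindZeta LSeries zt
  rw [Complex.ofReal_tsum]
  congr 1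
  ext n
  rw [← term_eq K hs]
  simp [cnt]

theorem tendsto_zt : Tendsto (fun s : ℝ => (s - 1) * zt K s) (𝓝[>] 1)
    (𝓝 (dedekindZeta_residue K)) := by
  have h := tendsto_sub_one_mul_dedekindZeta_nhdsGT K
  have h2 := (Complex.continuous_re.tendsto _).comp h
  rw [Complex.ofReal_re] at h2
  refine h2.congr' ?_
  filter_upwards [self_mem_nhdsWithin] with s hs
  simp only [Function.comp_apply]
  rw [dedekindZeta_eq K hs]
  rw [← Complex.ofReal_one, ← Complex.ofReal_sub, ← Complex.ofReal_mul, Complex.ofReal_re]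

/-- degree -/
noncomputable def dg : ℕ := Module.finrank ℤ (𝓞 K)

/-- the constant -/
noncomputable def C1 : ℝ := ∑' e : ℕ, ((e : ℝ) + 3) ^ dg K * (1 / 2) ^ e

theorem summable_C1 : Summable (fun e : ℕ => ((e : ℝ) + 3) ^ dg K * (1 / 2) ^ e) := by
  have h := summable_pow_mul_geometric_of_norm_lt_one (dg K) (r := (1 / 2 : ℝ))
    (by rw [Real.norm_eq_abs, abs_of_pos] <;> norm_num)
  have h2 := (summable_nat_add_iff 3).mpr h
  refine (h2.mul_left 8).congr fun e => ?_
  push_cast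
  rw [pow_add]
  ring

theorem C1_nonneg : 0 ≤ C1 K := tsum_nonneg fun e => by positivity

theorem fs_prime_pow_le {p : ℕ} (hp : p.Prime) {s : ℝ} (hs : 1 ≤ s) (e : ℕ) :
    fs K s (p ^ e) ≤ ((e : ℝ) + 1) ^ dg K * (1 / (p : ℝ)) ^ e := by
  unfold fs
  have h1 : (cnt K (p ^ e) : ℝ) ≤ ((e : ℝ) + 1) ^ dg K := by
    have := cnt_prime_pow_le (K := K) hp e
    exact_mod_cast this
  have hp1 : (1 : ℝ) ≤ (p : ℝ) := by exact_mod_cast hp.one_le
  have h2 : ((p ^ e : ℕ) : ℝ) ^ (-s) ≤ (1 / (p : ℝ)) ^ e := by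
    calc ((p ^ e : ℕ) : ℝ) ^ (-s) ≤ ((p ^ e : ℕ) : ℝ) ^ (-1 : ℝ) := by
          apply Real.rpow_le_rpow_of_exponent_le
          · push_cast
            exact one_le_pow₀ hp1
          · linarith
      _ = (1 / (p : ℝ)) ^ e := by
          rw [Real.rpow_neg_one]
          push_cast
          rw [one_div, inv_pow]
  exact mul_le_mul h1 h2 (by positivity) (by positivity)

theorem fs_prime_pow_add_two_le {p : ℕ} (hp : p.Prime) {s : ℝ} (hs : 1 ≤ s) (e : ℕ) :
    fs K s (p ^ (e + 2)) ≤ (1 / (p : ℝ) ^ 2) * (((e : ℝ) + 3) ^ dg K * (1 / 2) ^ e) := by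
  have h := fs_prime_pow_le K hp hs (e + 2)
  have hp0 : (0 : ℝ) < (p : ℝ) := by exact_mod_cast hp.pos
  have hp2 : (2 : ℝ) ≤ (p : ℝ) := by exact_mod_cast hp.two_le
  refine h.trans ?_
  have h3 : (1 / (p : ℝ)) ^ e ≤ (1 / 2) ^ e := by
    apply pow_le_pow_left₀ (by positivity)
    exact one_div_le_one_div_of_le (by norm_num) hp2
  calc (((e + 2 : ℕ) : ℝ) + 1) ^ dg K * (1 / (p : ℝ)) ^ (e + 2)
      = (1 / (p : ℝ) ^ 2) * (((e : ℝ) + 3) ^ dg K * (1 / (p : ℝ)) ^ e) := by
        rw [pow_add, one_div_pow (p : ℝ) 2]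
        push_cast
        rw [show (e : ℝ) + 2 + 1 = e + 3 by ring]
        ring
    _ ≤ _ := by gcongr

/-- the tail of the local factor -/
noncomputable def Rs (s : ℝ) (p : ℕ) : ℝ := ∑' e : ℕ, fs K s (p ^ (e + 2))

theorem Rs_nonneg (s : ℝ) (p : ℕ) : 0 ≤ Rs K s p := tsum_nonneg fun e => fs_nonneg K s _

theorem summable_Rs {p : ℕ} (hp : p.Prime) {s : ℝ} (hs : 1 ≤ s) :
    Summable (fun e : ℕ => fs K s (p ^ (e + 2))) :=
  Summable.of_nonneg_of_le (fun e => fs_nonneg K s _)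
    (fs_prime_pow_add_two_le K hp hs) ((summable_C1 K).mul_left _)

theorem Rs_le {p : ℕ} (hp : p.Prime) {s : ℝ} (hs : 1 ≤ s) :
    Rs K s p ≤ C1 K / (p : ℝ) ^ 2 := by
  calc Rs K s p ≤ ∑' e : ℕ, (1 / (p : ℝ) ^ 2) * (((e : ℝ) + 3) ^ dg K * (1 / 2) ^ e) :=
        (summable_Rs K hp hs).tsum_le_tsum (fs_prime_pow_add_two_le K hp hs)
          ((summable_C1 K).mul_left _)
    _ = _ := by rw [tsum_mul_left]; unfold C1; ring

theorem fs_prime_le {p : ℕ} (hp : p.Prime) {s : ℝ} (hs : 1 ≤ s) :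
    fs K s p ≤ 2 ^ dg K / (p : ℝ) := by
  have h := fs_prime_pow_le K hp hs 1
  rw [pow_one] at h
  refine h.trans (le_of_eq ?_)
  norm_num
  rw [div_eq_mul_inv]

theorem fs_one (s : ℝ) : fs K s 1 = 1 := by simp [fs, cnt_one]

theorem local_factor {p : ℕ} (hp : p.Prime) {s : ℝ} (hs : 1 < s) :
    ∑' e : ℕ, fs K s (p ^ e) = 1 + (fs K s p + Rs K s p) := by
  have hsum : Summable (fun e : ℕ => fs K s (p ^ e)) :=
    (summable_fs K hs).comp_injective (Nat.pow_right_injective hp.two_le)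
  rw [← hsum.sum_add_tsum_nat_add 2]
  simp only [Finset.sum_range_succ, Finset.sum_range_zero, pow_zero, pow_one, zero_add, fs_one]
  unfold Rs
  ring

theorem fs_zero {s : ℝ} (hs : 1 < s) : fs K s 0 = 0 := by
  unfold fs
  have : -s ≠ 0 := by linarith
  simp [Real.zero_rpow this]

theorem fs_mul (s : ℝ) (hs : 1 < s) {m n : ℕ} (h : Nat.Coprime m n) :
    fs K s (m * n) = fs K s m * fs K s n := by
  rcases Nat.eq_zero_or_pos m with rfl | hm
  · simp [fs_zero K hs]
  rcases Nat.eq_zero_or_pos n with rfl | hn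
  · simp [fs_zero K hs]
  unfold fs
  rw [cnt_mul hm.ne' hn.ne' h]
  push_cast
  rw [Real.mul_rpow (by positivity) (by positivity)]
  ring

theorem hasProd_zt {s : ℝ} (hs : 1 < s) :
    HasProd (fun p : Nat.Primes => 1 + (fs K s p + Rs K s p)) (zt K s) := by
  have h := EulerProduct.eulerProduct_hasProd (f := fs K s) (fs_one K s)
    (fun {m n} h => fs_mul K s hs h) (summable_fs K hs).norm (fs_zero K hs)
  have e : (fun p : Nat.Primes => ∑' e : ℕ, fs K s ((p : ℕ) ^ e)) =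
      fun p : Nat.Primes => 1 + (fs K s p + Rs K s p) :=
    funext fun p => local_factor K p.2 hs
  rw [e] at h
  exact h

theorem summable_inv_sq : Summable (fun p : Nat.Primes => 1 / ((p : ℕ) : ℝ) ^ 2) :=
  (Real.summable_one_div_nat_pow.mpr one_lt_two).comp_injective Subtype.val_injective

theorem summable_fs_primes {s : ℝ} (hs : 1 < s) :
    Summable (fun p : Nat.Primes => fs K s p) :=
  (summable_fs K hs).comp_injective Subtype.val_injective

theorem summable_Rs_primes {s : ℝ} (hs : 1 < s) :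
    Summable (fun p : Nat.Primes => Rs K s p) := by
  refine Summable.of_nonneg_of_le (fun p => Rs_nonneg K s _) (fun p => Rs_le K p.2 hs.le) ?_
  refine (summable_inv_sq.mul_left (C1 K)).congr fun p => ?_
  ring

theorem summable_log {s : ℝ} (hs : 1 < s) :
    Summable (fun p : Nat.Primes => Real.log (1 + (fs K s p + Rs K s p))) :=
  Real.summable_log_one_add_of_summable ((summable_fs_primes K hs).add (summable_Rs_primes K hs))

theorem log_zt {s : ℝ} (hs : 1 < s) :
    Real.log (zt K s) = ∑' p : Nat.Primes, Real.log (1 + (fs K s p + Rs K s p)) := by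
  have h1 := Real.rexp_tsum_eq_tprod (f := fun p : Nat.Primes => 1 + (fs K s p + Rs K s p))
    (fun p => by
      have := fs_nonneg K s p
      have := Rs_nonneg K s p
      positivity) (summable_log K hs)
  rw [(hasProd_zt K hs).tprod_eq] at h1
  rw [← h1, Real.log_exp]

theorem log_bound {x R : ℝ} (hx : 0 ≤ x) (hR : 0 ≤ R) :
    |Real.log (1 + (x + R)) - x| ≤ R + (x + R) ^ 2 := by
  have hpos : 0 < 1 + (x + R) := by positivity
  have h1 : Real.log (1 + (x + R)) ≤ x + R := by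
    have := Real.log_le_sub_one_of_pos hpos
    linarith
  have h2 : 1 - (1 + (x + R))⁻¹ ≤ Real.log (1 + (x + R)) := Real.one_sub_inv_le_log_of_pos hpos
  have h3 : (x + R) - (x + R) ^ 2 ≤ 1 - (1 + (x + R))⁻¹ := by
    have h4 : (1 + (x + R))⁻¹ ≤ 1 - (x + R) + (x + R) ^ 2 := by
      rw [inv_eq_one_div, div_le_iff₀ hpos]
      nlinarith [pow_nonneg (add_nonneg hx hR) 3]
    linarith
  rw [abs_le]
  constructor
  · nlinarith [sq_nonneg (x + R)]
  · nlinarith [sq_nonneg (x + R)]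

/-- constant -/
noncomputable def C2 : ℝ := C1 K + (2 ^ dg K + C1 K) ^ 2

theorem term_bound {p : ℕ} (hp : p.Prime) {s : ℝ} (hs : 1 ≤ s) :
    |Real.log (1 + (fs K s p + Rs K s p)) - fs K s p| ≤ C2 K * (1 / (p : ℝ) ^ 2) := by
  have hp0 : (0 : ℝ) < (p : ℝ) := by exact_mod_cast hp.pos
  have hp1 : (1 : ℝ) ≤ (p : ℝ) := by exact_mod_cast hp.one_le
  have hC := C1_nonneg K
  refine (log_bound (fs_nonneg K s p) (Rs_nonneg K s p)).trans ?_
  have h1 := fs_prime_le K hp hs
  have h2 := Rs_le K hp hs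
  have h3 : Rs K s p ≤ C1 K / (p : ℝ) := by
    refine h2.trans ?_
    apply div_le_div_of_nonneg_left hC hp0
    nlinarith
  have h4 : fs K s p + Rs K s p ≤ (2 ^ dg K + C1 K) / (p : ℝ) := by
    rw [add_div]; linarith
  have h5 : (fs K s p + Rs K s p) ^ 2 ≤ ((2 ^ dg K + C1 K) / (p : ℝ)) ^ 2 :=
    pow_le_pow_left₀ (add_nonneg (fs_nonneg K s p) (Rs_nonneg K s p)) h4 2
  rw [div_pow] at h5
  unfold C2
  calc Rs K s p + (fs K s p + Rs K s p) ^ 2
      ≤ C1 K / (p : ℝ) ^ 2 + (2 ^ dg K + C1 K) ^ 2 / (p : ℝ) ^ 2 := add_le_add h2 h5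
    _ = _ := by ring

theorem main_bound {s : ℝ} (hs : 1 < s) :
    |Real.log (zt K s) - ∑' p : Nat.Primes, fs K s p| ≤
      C2 K * ∑' p : Nat.Primes, 1 / ((p : ℕ) : ℝ) ^ 2 := by
  rw [log_zt K hs, ← (summable_log K hs).tsum_sub (summable_fs_primes K hs), ← tsum_mul_left]
  have hb : Summable (fun p : Nat.Primes => C2 K * (1 / ((p : ℕ) : ℝ) ^ 2)) :=
    summable_inv_sq.mul_left _
  rw [← Real.norm_eq_abs]
  exact tsum_of_norm_bounded hb.hasSum fun p => by
    rw [Real.norm_eq_abs]; exact term_bound K p.2 hs.le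

theorem tendsto_main : Tendsto (fun s : ℝ => (∑' p : Nat.Primes, fs K s p) /
    (-Real.log (s - 1))) (𝓝[>] 1) (𝓝 1) := by
  have hs1 : Tendsto (fun s : ℝ => s - 1) (𝓝[>] 1) (𝓝[>] 0) := by
    rw [tendsto_nhdsWithin_iff]
    constructor
    · have : Tendsto (fun s : ℝ => s - 1) (𝓝 1) (𝓝 (1 - 1)) :=
        (continuous_id.sub continuous_const).tendsto 1
      rw [sub_self] at this
      exact this.mono_left nhdsWithin_le_nhds
    · filter_upwards [self_mem_nhdsWithin] with s hs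
      exact sub_pos.mpr (Set.mem_Ioi.mp hs)
  have hlog : Tendsto (fun s : ℝ => -Real.log (s - 1)) (𝓝[>] 1) atTop :=
    tendsto_neg_atBot_atTop.comp (Real.tendsto_log_nhdsGT_zero.comp hs1)
  set M := C2 K * ∑' p : Nat.Primes, 1 / ((p : ℕ) : ℝ) ^ 2 with hM
  have hρ := dedekindZeta_residue_pos K
  have h1 : Tendsto (fun s : ℝ => Real.log ((s - 1) * zt K s)) (𝓝[>] 1)
      (𝓝 (Real.log (dedekindZeta_residue K))) :=
    (Real.continuousAt_log hρ.ne').tendsto.comp (tendsto_zt K)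
  have h2 : Tendsto (fun s : ℝ => Real.log ((s - 1) * zt K s) / (-Real.log (s - 1))) (𝓝[>] 1)
      (𝓝 0) := h1.div_atTop hlog
  have h3 : Tendsto (fun s : ℝ => ((∑' p : Nat.Primes, fs K s p) - Real.log (zt K s)) /
      (-Real.log (s - 1))) (𝓝[>] 1) (𝓝 0) := by
    have h4 : Tendsto (fun s : ℝ => M / (-Real.log (s - 1))) (𝓝[>] 1) (𝓝 0) :=
      tendsto_const_nhds.div_atTop hlog
    refine squeeze_zero_norm' ?_ h4
    filter_upwards [self_mem_nhdsWithin, hlog.eventually_gt_atTop 0] with s hs hpos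
    rw [norm_div, Real.norm_eq_abs, Real.norm_eq_abs, abs_of_pos hpos, abs_sub_comm]
    exact div_le_div_of_nonneg_right (main_bound K hs) hpos.le
  have h5 : Tendsto (fun s : ℝ => 1 + Real.log ((s - 1) * zt K s) / (-Real.log (s - 1)) +
      ((∑' p : Nat.Primes, fs K s p) - Real.log (zt K s)) /
      (-Real.log (s - 1))) (𝓝[>] 1) (𝓝 (1 + 0 + 0)) := (tendsto_const_nhds.add h2).add h3
  rw [add_zero, add_zero] at h5
  refine h5.congr' ?_
  have hpos : ∀ᶠ s : ℝ in 𝓝[>] 1, 0 < (s - 1) * zt K s :=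
    (tendsto_zt K).eventually (lt_mem_nhds hρ)
  filter_upwards [self_mem_nhdsWithin, hlog.eventually_gt_atTop 0, hpos] with s hs hl hz
  have hs' : 0 < s - 1 := sub_pos.mpr hs
  have hz' : 0 < zt K s := by
    by_contra hcon
    push Not at hcon
    exact absurd hz (not_lt.mpr (mul_nonpos_of_nonneg_of_nonpos hs'.le hcon))
  rw [Real.log_mul hs'.ne' hz'.ne']
  set l := Real.log (s - 1)
  have hl0 : l ≠ 0 := by
    intro h0
    rw [h0] at hl
    simp at hl
  field_simp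
  ring

/-- J1 -/
theorem summable_normPrime (s : ℝ) (hs : 1 < s) :
    Summable (fun p : Nat.Primes =>
      (Nat.card {I : Ideal (𝓞 K) // Ideal.absNorm I = (p : ℕ)} : ℝ) * ((p : ℕ) : ℝ) ^ (-s)) :=
  summable_fs_primes K hs

theorem tendsto_normPrime :
    Tendsto (fun s : ℝ => (∑' p : Nat.Primes,
      (Nat.card {I : Ideal (𝓞 K) // Ideal.absNorm I = (p : ℕ)} : ℝ) * ((p : ℕ) : ℝ) ^ (-s)) /
        (-Real.log (s - 1))) (𝓝[>] 1) (𝓝 1) :=
  tendsto_main K

end Pool.Agent.H54.Zeta
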